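import Pool.Agent.Helper43.GH.Defs2

/-!
GH-P3. Numbers for pairs of blocks.
-/

set_option linter.unusedSectionVars false
set_option linter.unusedVariables false

open Matrix Module

namespace GH

open MH

variable {n : Type*} [Fintype n] [DecidableEq n] {m : Type*} [Fintype m] [DecidableEq m]
  {k : Type*} [Fintype k] [DecidableEq k]

/-! ### Linear algebra -/

private lemma cnt38 {V W : Type*} [AddCommGroup V] [Module ℂ V] [FiniteDimensional ℂ V] [AddCommGroup W] [Module ℂ W]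
    [FiniteDimensional ℂ W] (P : Submodule ℂ (V × W)) (K1 : Submodule ℂ V) (K2 Z2 : Submodule ℂ W)
    (h1 : K1 ≤ P.map (LinearMap.fst ℂ V W)) (h2 : K2 ≤ Z2) (ha : ∀ p ∈ P, p.1 ∈ K1 → p.2 ∈ Z2)
    (hb : ∀ p ∈ P, p.1 ∈ K1 → p.2 = 0 → p.1 = 0) {w : W} (hw : w ≠ 0) (hwP : ((0 : V), w) ∈ P)
    (R : Submodule ℂ (V × W)) (hR : ∀ p, p ∈ R ↔ p ∈ P ∧ p.1 ∈ K1 ∧ p.2 ∈ K2) :
    finrank ℂ K1 + 1 + finrank ℂ K2 ≤ finrank ℂ Z2 + finrank ℂ (R.map (LinearMap.snd ℂ V W)) := by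
  let A : Submodule ℂ (V × W) := P ⊓ K1.comap (LinearMap.fst ℂ V W)
  have hA : ∀ p, p ∈ A ↔ p ∈ P ∧ p.1 ∈ K1 := fun p => Iff.rfl
  -- the dimension of `A`
  have d1 : finrank ℂ K1 + 1 ≤ finrank ℂ A := by
    let f : A →ₗ[ℂ] V := (LinearMap.fst ℂ V W).domRestrict A
    have e1 := LinearMap.finrank_range_add_finrank_ker f
    have e2 : LinearMap.range f = K1 := by
      ext x
      constructor
      · rintro ⟨p, rfl⟩
        exact ((hA p.1).1 p.2).2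
      · intro hx
        obtain ⟨p, hp, hpx⟩ := h1 hx
        have hpx' : p.1 = x := hpx
        exact ⟨⟨p, (hA p).2 ⟨hp, by rw [hpx']; exact hx⟩⟩, hpx'⟩
    have e3 : 1 ≤ finrank ℂ (LinearMap.ker f) := by
      have hz : ((0 : V), w) ∈ A := (hA _).2 ⟨hwP, K1.zero_mem⟩
      have : Nontrivial (LinearMap.ker f) := by
        refine ⟨⟨⟨⟨((0 : V), w), hz⟩, rfl⟩, 0, ?_⟩⟩
        intro h
        apply hw
        have h3 := congrArg (fun q : LinearMap.ker f => ((q : A) : V × W).2) h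
        exact h3
      exact Nat.one_le_iff_ne_zero.2 (Module.finrank_pos (R := ℂ) (M := LinearMap.ker f)).ne'
    rw [e2] at e1
    omega
  -- the second coordinates
  have d2 : finrank ℂ (A.map (LinearMap.snd ℂ V W)) = finrank ℂ A := by
    have e1 : LinearMap.range ((LinearMap.snd ℂ V W).domRestrict A) = A.map (LinearMap.snd ℂ V W) :=
      LinearMap.range_domRestrict _ _
    rw [← e1]
    apply LinearMap.finrank_range_of_inj
    rw [← LinearMap.ker_eq_bot, LinearMap.ker_eq_bot']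
    rintro ⟨p, hp⟩ h
    have h3 : p.2 = 0 := h
    have h4 := (hA p).1 hp
    have h5 := hb p h4.1 h4.2 h3
    apply Subtype.ext
    exact Prod.ext h5 h3
  have d3 : A.map (LinearMap.snd ℂ V W) ⊔ K2 ≤ Z2 := by
    refine sup_le ?_ h2
    rintro _ ⟨p, hp, rfl⟩
    exact ha p ((hA p).1 hp).1 ((hA p).1 hp).2
  have d4 : A.map (LinearMap.snd ℂ V W) ⊓ K2 ≤ R.map (LinearMap.snd ℂ V W) := by
    rintro x ⟨⟨p, hp, rfl⟩, hx⟩
    exact ⟨p, (hR p).2 ⟨((hA p).1 hp).1, ((hA p).1 hp).2, hx⟩, rfl⟩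
  have e1 := Submodule.finrank_sup_add_finrank_inf_eq (A.map (LinearMap.snd ℂ V W)) K2
  have e2 := Submodule.finrank_mono d3
  have e3 := Submodule.finrank_mono d4
  omega

private lemma inj38 {V W U : Type*} [AddCommGroup V] [Module ℂ V] [FiniteDimensional ℂ V] [AddCommGroup W] [Module ℂ W]
    [FiniteDimensional ℂ W] [AddCommGroup U] [Module ℂ U] (R : Submodule ℂ (V × W)) (f : V × W →ₗ[ℂ] U)
    (h : ∀ p ∈ R, f p = 0 → p = 0) : finrank ℂ (R.map f) = finrank ℂ R := by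
  have e1 : LinearMap.range (f.domRestrict R) = R.map f := LinearMap.range_domRestrict _ _
  rw [← e1]
  apply LinearMap.finrank_range_of_inj
  rw [← LinearMap.ker_eq_bot, LinearMap.ker_eq_bot']
  rintro ⟨p, hp⟩ h3
  apply Subtype.ext
  exact h p hp h3

/-! ### Scalars -/

private lemma comm_scalar38 {h x : Matrix n n ℂ} {c : ℂ} (hc : h * x - x * h = c • (1 : Matrix n n ℂ)) :
    h * x - x * h = 0 := by
  have h1 := congrArg Matrix.trace hc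
  rw [trace_sub, trace_mul_comm, sub_self, trace_smul, trace_one, smul_eq_mul] at h1
  rcases mul_eq_zero.1 h1.symm with h2 | h2
  · rw [hc, h2, zero_smul]
  · have h3 : Fintype.card n = 0 := by exact_mod_cast h2
    have : IsEmpty n := Fintype.card_eq_zero_iff.1 h3
    exact Subsingleton.elim _ _

private lemma scalar_KK38 {E : ℝ → Matrix n n ℂ} (hE : E 0 ≠ 1) {x : Matrix n n ℂ} {c : ℂ}
    (hc : x = c • (1 : Matrix n n ℂ)) (hx : E 0 * x * E 0 = x) (hEE : E 0 * E 0 = E 0) : x = 0 := by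
  rw [hc, mul_smul_comm, mul_one, smul_mul_assoc, hEE, ← sub_eq_zero, ← smul_sub] at hx
  rcases smul_eq_zero.1 hx with h | h
  · rw [hc, h, zero_smul]
  · exact absurd (sub_eq_zero.1 h) hE

variable {P : Submodule ℂ (Matrix m m ℂ × Matrix k k ℂ)} {h₁ : Matrix m m ℂ} {E₁ : ℝ → Matrix m m ℂ} {Λ₁ : Finset ℝ}
  {h₂ : Matrix k k ℂ} {E₂ : ℝ → Matrix k k ℂ} {Λ₂ : Finset ℝ}

/-! ### Components -/

private lemma cmp_zero38 {h : Matrix n n ℂ} {E : ℝ → Matrix n n ℂ} {Λ : Finset ℝ} (S : Spec h E Λ) {ν : ℝ}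
    (hν : ν ∉ (Λ ×ˢ Λ).image (fun p => p.1 - p.2)) (x : Matrix n n ℂ) : cmp E Λ ν x = 0 := by
  apply S.ext
  intro μ μ'
  rw [S.block_cmp]
  split_ifs with hc
  · by_cases hμ : μ ∈ Λ
    · by_cases hμ' : μ' ∈ Λ
      · exfalso
        apply hν
        exact Finset.mem_image.mpr ⟨(μ, μ'), Finset.mem_product.mpr ⟨hμ, hμ'⟩, hc⟩
      · rw [S.supp μ' hμ']; simp
    · rw [S.supp μ hμ]; simp
  · simp

private lemma sum_cmp38 {h : Matrix n n ℂ} {E : ℝ → Matrix n n ℂ} {Λ : Finset ℝ} (S : Spec h E Λ) {Q : Finset ℝ}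
    (hQ : (Λ ×ˢ Λ).image (fun p => p.1 - p.2) ⊆ Q) (x : Matrix n n ℂ) : ∑ ν ∈ Q, cmp E Λ ν x = x := by
  rw [← Finset.sum_subset hQ (fun ν _ hν => cmp_zero38 S hν x)]
  exact (S.sum_cmp x).symm

private lemma pcmp_mem38 (D : PG P h₁ E₁ Λ₁ h₂ E₂ Λ₂) {p : Matrix m m ℂ × Matrix k k ℂ} (hp : p ∈ P) {ν : ℝ} :
    (cmp E₁ Λ₁ ν p.1, cmp E₂ Λ₂ ν p.2) ∈ Pd P h₁ h₂ ν := by
  classical
  refine ⟨?_, D.spec1.bracket_cmp ν p.1, D.spec2.bracket_cmp ν p.2⟩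
  set Q0 : Finset ℝ := (Λ₁ ×ˢ Λ₁).image (fun p => p.1 - p.2) ∪ (Λ₂ ×ˢ Λ₂).image (fun p => p.1 - p.2) with hQ0
  by_cases hν : ν ∈ Q0
  · let A : (Matrix m m ℂ × Matrix k k ℂ) →ₗ[ℂ] (Matrix m m ℂ × Matrix k k ℂ) :=
      { toFun := fun y => (h₁, h₂) * y - y * (h₁, h₂)
        map_add' := by intro a b; noncomm_ring
        map_smul' := by intro c a; simp [smul_sub] }
    set Q : Finset ℂ := Q0.image (fun r : ℝ => (r : ℂ)) with hQ
    have := eig_mem (K := ℂ) A (M := P) (fun y hy => D.br _ D.mem y hy) Q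
      (fun c => (cmp E₁ Λ₁ c.re p.1, cmp E₂ Λ₂ c.re p.2)) (by
        intro c hc
        obtain ⟨r, _, rfl⟩ := Finset.mem_image.mp hc
        change (h₁, h₂) * (cmp E₁ Λ₁ ((r : ℂ)).re p.1, cmp E₂ Λ₂ ((r : ℂ)).re p.2) -
          (cmp E₁ Λ₁ ((r : ℂ)).re p.1, cmp E₂ Λ₂ ((r : ℂ)).re p.2) * (h₁, h₂) = _
        rw [Complex.ofReal_re, Prod.mk_mul_mk, Prod.mk_mul_mk, Prod.mk_sub_mk, D.spec1.bracket_cmp,
          D.spec2.bracket_cmp]
        rfl) (by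
        rw [hQ, Finset.sum_image (by intro a _ b _ hab; exact Complex.ofReal_injective hab)]
        simp only [Complex.ofReal_re]
        have e : ∑ x ∈ Q0, (cmp E₁ Λ₁ x p.1, cmp E₂ Λ₂ x p.2) = p := by
          apply Prod.ext
          · rw [Prod.fst_sum]
            exact sum_cmp38 D.spec1 Finset.subset_union_left p.1
          · rw [Prod.snd_sum]
            exact sum_cmp38 D.spec2 Finset.subset_union_right p.2
        rw [e]; exact hp) (ν : ℂ) (Finset.mem_image.mpr ⟨ν, hν, rfl⟩)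
    simpa using this
  · rw [hQ0, Finset.mem_union, not_or] at hν
    rw [cmp_zero38 D.spec1 hν.1, cmp_zero38 D.spec2 hν.2]
    exact P.zero_mem

private lemma cmp_self38 {h : Matrix n n ℂ} {E : ℝ → Matrix n n ℂ} {Λ : Finset ℝ} (S : Spec h E Λ) {ν : ℝ}
    {x : Matrix n n ℂ} (hx : h * x - x * h = (ν : ℂ) • x) : cmp E Λ ν x = x := by
  apply S.ext
  intro μ μ'
  rw [S.block_cmp]
  split_ifs with hc
  · rfl
  · have h1 := S.sandwich x μ μ'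
    rw [hx, mul_smul_comm, smul_mul_assoc] at h1
    have h2 : (((μ : ℂ) - μ') - ν) • (E μ * x * E μ') = 0 := by
      rw [sub_smul, ← h1, sub_self]
    rcases smul_eq_zero.mp h2 with h3 | h3
    · exfalso; apply hc
      have : (μ - μ') - ν = 0 := by exact_mod_cast h3
      linarith
    · exact h3.symm

/-- P3: numbers -/
theorem PG.four (D : PG P h₁ E₁ Λ₁ h₂ E₂ Λ₂) (g : Gra P) (g1 : Good (P.map (LinearMap.fst ℂ _ _)) h₁ E₁ Λ₁)
    (g2 : Good (P.map (LinearMap.snd ℂ _ _)) h₂ E₂ Λ₂) :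
    4 ≤ finrank ℂ ((PK P E₁ E₂).map (LinearMap.fst ℂ _ _)) ∧ 4 ≤ finrank ℂ ((PK P E₁ E₂).map (LinearMap.snd ℂ _ _)) ∧
      Nr1 P h₁ h₂ ∧ Nr2 P h₁ h₂ := by
  have n1 : Nr1 P h₁ h₂ := by
    intro T hT hT'
    refine g1.nr T hT (fun ν hν x hx => ?_)
    obtain ⟨⟨p, hp, hpx⟩, hx2⟩ := hx
    have hpx' : p.1 = x := hpx
    have h1 := pcmp_mem38 D hp (ν := ν)
    have h2 := hT' ν hν _ h1
    have h3 : cmp E₁ Λ₁ ν p.1 = x := by
      rw [hpx']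
      exact cmp_self38 D.spec1 hx2
    simp only [h3] at h2
    exact h2
  have n2 : Nr2 P h₁ h₂ := by
    intro T hT hT'
    refine g2.nr T hT (fun ν hν x hx => ?_)
    obtain ⟨⟨p, hp, hpx⟩, hx2⟩ := hx
    have hpx' : p.2 = x := hpx
    have h1 := pcmp_mem38 D hp (ν := ν)
    have h2 := hT' ν hν _ h1
    have h3 : cmp E₂ Λ₂ ν p.2 = x := by
      rw [hpx']
      exact cmp_self38 D.spec2 hx2
    simp only [h3] at h2
    exact h2
  have hEE1 : E₁ 0 * E₁ 0 = E₁ 0 := by rw [D.spec1.mul, if_pos rfl]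
  have hEE2 : E₂ 0 * E₂ 0 = E₂ 0 := by rw [D.spec2.mul, if_pos rfl]
  have one1 : (1 : Matrix m m ℂ) ≠ 0 := by
    intro h0
    apply g1.ne
    have : ∀ x : Matrix m m ℂ, x = 0 := fun x => by rw [← mul_one x, h0, mul_zero]
    rw [this (E₁ 0), this 1]
  have one2 : (1 : Matrix k k ℂ) ≠ 0 := by
    intro h0
    apply g2.ne
    have : ∀ x : Matrix k k ℂ, x = 0 := fun x => by rw [← mul_one x, h0, mul_zero]
    rw [this (E₂ 0), this 1]
  have hR : ∀ p, p ∈ PK P E₁ E₂ ↔ p ∈ P ∧ p.1 ∈ KK (P.map (LinearMap.fst ℂ _ _)) E₁ ∧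
      p.2 ∈ KK (P.map (LinearMap.snd ℂ _ _)) E₂ := by
    intro p
    constructor
    · rintro ⟨h1, h2, h3⟩
      exact ⟨h1, ⟨⟨p, h1, rfl⟩, h2⟩, ⟨⟨p, h1, rfl⟩, h3⟩⟩
    · rintro ⟨h1, h2, h3⟩
      exact ⟨h1, h2.2, h3.2⟩
  -- first coordinate in `KK`
  have a1 : ∀ p ∈ P, p.1 ∈ KK (P.map (LinearMap.fst ℂ _ _)) E₁ → p.2 ∈ Ld (P.map (LinearMap.snd ℂ _ _)) h₂ 0 := by
    intro p hp hK
    refine ⟨⟨p, hp, rfl⟩, ?_⟩
    have h1 := D.br _ D.mem p hp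
    have h2 := g1.gr.KK_Ld hK
    have h3 : h₁ * p.1 - p.1 * h₁ = 0 := by
      have := h2.2
      simpa using this
    obtain ⟨c, hc⟩ := (g _ h1).1 ⟨0, by
      show h₁ * p.1 - p.1 * h₁ = _
      rw [h3, zero_smul]⟩
    have h4 : h₂ * p.2 - p.2 * h₂ = c • (1 : Matrix k k ℂ) := hc
    rw [comm_scalar38 h4]
    simp
  have a2 : ∀ p ∈ P, p.2 ∈ KK (P.map (LinearMap.snd ℂ _ _)) E₂ → p.1 ∈ Ld (P.map (LinearMap.fst ℂ _ _)) h₁ 0 := by
    intro p hp hK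
    refine ⟨⟨p, hp, rfl⟩, ?_⟩
    have h1 := D.br _ D.mem p hp
    have h2 := g2.gr.KK_Ld hK
    have h3 : h₂ * p.2 - p.2 * h₂ = 0 := by
      have := h2.2
      simpa using this
    obtain ⟨c, hc⟩ := (g _ h1).2 ⟨0, by
      show h₂ * p.2 - p.2 * h₂ = _
      rw [h3, zero_smul]⟩
    have h4 : h₁ * p.1 - p.1 * h₁ = c • (1 : Matrix m m ℂ) := hc
    rw [comm_scalar38 h4]
    simp
  have b1 : ∀ p ∈ P, p.1 ∈ KK (P.map (LinearMap.fst ℂ _ _)) E₁ → p.2 = 0 → p.1 = 0 := by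
    intro p hp hK h0
    obtain ⟨c, hc⟩ := (g p hp).2 ⟨0, by rw [h0, zero_smul]⟩
    exact scalar_KK38 g1.ne hc hK.2 hEE1
  have b2 : ∀ p ∈ P, p.2 ∈ KK (P.map (LinearMap.snd ℂ _ _)) E₂ → p.1 = 0 → p.2 = 0 := by
    intro p hp hK h0
    obtain ⟨c, hc⟩ := (g p hp).1 ⟨0, by rw [h0, zero_smul]⟩
    exact scalar_KK38 g2.ne hc hK.2 hEE2
  have c1 := cnt38 P (KK (P.map (LinearMap.fst ℂ _ _)) E₁) (KK (P.map (LinearMap.snd ℂ _ _)) E₂)
    (Ld (P.map (LinearMap.snd ℂ _ _)) h₂ 0) (fun x hx => hx.1) (fun x hx => g2.gr.KK_Ld hx) a1 b1 one2 D.one2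
    (PK P E₁ E₂) hR
  -- the other order
  let sw : (Matrix k k ℂ × Matrix m m ℂ) →ₗ[ℂ] (Matrix m m ℂ × Matrix k k ℂ) :=
    (LinearEquiv.prodComm ℂ (Matrix k k ℂ) (Matrix m m ℂ)).toLinearMap
  have hsw : ∀ p : Matrix k k ℂ × Matrix m m ℂ, sw p = (p.2, p.1) := fun p => rfl
  have c2 := cnt38 (P.comap sw) (KK (P.map (LinearMap.snd ℂ _ _)) E₂) (KK (P.map (LinearMap.fst ℂ _ _)) E₁)
    (Ld (P.map (LinearMap.fst ℂ _ _)) h₁ 0) (by
      intro x hx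
      obtain ⟨p, hp, hpx⟩ := hx.1
      exact ⟨(p.2, p.1), hp, hpx⟩) (fun x hx => g1.gr.KK_Ld hx) (fun p hp h => a2 (p.2, p.1) hp h)
    (fun p hp h h0 => b2 (p.2, p.1) hp h h0) one1 (show ((1 : Matrix m m ℂ), (0 : Matrix k k ℂ)) ∈ P from D.one1)
    ((PK P E₁ E₂).comap sw) (by
      intro p
      show (p.2, p.1) ∈ PK P E₁ E₂ ↔ _
      rw [hR]
      constructor
      · rintro ⟨h1, h2, h3⟩
        exact ⟨h1, h3, h2⟩
      · rintro ⟨h1, h2, h3⟩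
        exact ⟨h1, h3, h2⟩)
  have c3 : ((PK P E₁ E₂).comap sw).map (LinearMap.snd ℂ _ _) = (PK P E₁ E₂).map (LinearMap.fst ℂ _ _) := by
    ext x
    constructor
    · rintro ⟨p, hp, rfl⟩
      exact ⟨(p.2, p.1), hp, rfl⟩
    · rintro ⟨p, hp, rfl⟩
      exact ⟨(p.2, p.1), hp, rfl⟩
  rw [c3] at c2
  have i1 := inj38 (PK P E₁ E₂) (LinearMap.fst ℂ (Matrix m m ℂ) (Matrix k k ℂ)) (by
    intro p hp h
    have h' : p.1 = 0 := h
    have hp' := (hR p).1 hp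
    exact Prod.ext h' (b2 p hp'.1 hp'.2.2 h'))
  have i2 := inj38 (PK P E₁ E₂) (LinearMap.snd ℂ (Matrix m m ℂ) (Matrix k k ℂ)) (by
    intro p hp h
    have h' : p.2 = 0 := h
    have hp' := (hR p).1 hp
    exact Prod.ext (b1 p hp'.1 hp'.2.1 h') h')
  have u1 := g1.nu
  have u2 := g2.nu
  refine ⟨by omega, by omega, n1, n2⟩

end GH
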